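import Pool.Graph.R_pool_sql_team_seeded_63374d34.N88.FPR.Kunz
import Pool.Agent.H67.FK.CechVan

/-!
# Closed support of the Koszul cohomology of `F`-finite `F`-modules

Let `R` be a noetherian regular ring of prime characteristic `p`, `f 0, ..., f (c - 1)` any sequence
of elements of `R` and `M` an `F`-finite `F`-module. Then the support of `H^i(K(f; M))` is Zariski
closed for every integer `i`.
-/

set_option autoImplicit false

open CategoryTheory

universe u

namespace Pool.Agent.Results.MP_95a866_al.ClosedSupport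

/-- The Frobenius (Peskine-Szpiro) functor: base change along the Frobenius map. -/
noncomputable abbrev Frob (R : Type u) [CommRing R] (p : ℕ) [Fact p.Prime] [CharP R p] :
    ModuleCat.{u} R ⥤ ModuleCat.{u} R :=
  ModuleCat.extendScalars (frobenius R p)

/-- An `F`-module: an `R`-module `M` with an isomorphism `θ : M ≅ F(M)`. -/
structure FModule (R : Type u) [CommRing R] (p : ℕ) [Fact p.Prime] [CharP R p] where
  carrier : ModuleCat.{u} R
  θ : carrier ≅ (Frob R p).obj carrier

section

variable {R : Type u} [CommRing R] {p : ℕ} [Fact p.Prime] [CharP R p]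

/-- The iterates `F^e(N)`. -/
noncomputable def iter (p : ℕ) [Fact p.Prime] [CharP R p] (N : ModuleCat.{u} R) :
    ℕ → ModuleCat.{u} R
  | 0 => N
  | e + 1 => (Frob R p).obj (iter p N e)

/-- The maps `F^e(β) : F^e(N) ⟶ F^(e+1)(N)`. -/
noncomputable def iterMap {N : ModuleCat.{u} R} (β : N ⟶ (Frob R p).obj N) :
    ∀ e : ℕ, iter p N e ⟶ iter p N (e + 1)
  | 0 => β
  | e + 1 => (Frob R p).map (iterMap β e)

/-- The cocone on `N ⟶ F(N) ⟶ F^2(N) ⟶ ...` given by compatible maps `l e : F^e(N) ⟶ M`. -/
noncomputable def coconeOf {N : ModuleCat.{u} R} (β : N ⟶ (Frob R p).obj N) {M : ModuleCat.{u} R}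
    (l : ∀ e, iter p N e ⟶ M) (hl : ∀ e, iterMap β e ≫ l (e + 1) = l e) :
    Limits.Cocone (Functor.ofSequence (iterMap β)) where
  pt := M
  ι := NatTrans.ofSequence l fun e => by
    rw [Functor.ofSequence_map_homOfLE_succ]
    exact (hl e).trans (Category.comp_id (l e)).symm

/-- `β : N ⟶ F(N)` is a generating morphism of the `F`-module `M`: the module `M` is the colimit of
`N ⟶ F(N) ⟶ F^2(N) ⟶ ...`, the maps being `β, F(β), F^2(β), ...`, and `θ : M ≅ F(M)` is induced by
the maps `F^e(β) : F^e(N) ⟶ F^(e+1)(N) = F(F^e(N))`. -/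
def IsGenerating (M : FModule R p) {N : ModuleCat.{u} R} (β : N ⟶ (Frob R p).obj N) : Prop :=
  ∃ (l : ∀ e, iter p N e ⟶ M.carrier) (hl : ∀ e, iterMap β e ≫ l (e + 1) = l e),
    Nonempty (Limits.IsColimit (coconeOf β l hl)) ∧
      ∀ e, l e ≫ M.θ.hom = iterMap β e ≫ (Frob R p).map (l e)

/-- `M` is `F`-finite: it has a generating morphism `β : N ⟶ F(N)` with `N` finitely generated. -/
def IsFFinite (M : FModule R p) : Prop :=
  ∃ (N : ModuleCat.{u} R) (β : N ⟶ (Frob R p).obj N), Module.Finite R N ∧ IsGenerating M β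

end

section Koszul

variable {R : Type u} [CommRing R] {c : ℕ}

/-- The differential `ω ↦ (∑ j, f j e_j) ∧ ω` of the Koszul cocomplex `⋀ R^c ⊗ N`. A function
`ω : Finset (Fin c) → N` stands for the element `∑ S, e_S ⊗ ω S`, where `e_S` is the exterior
product of the `e_k`, `k ∈ S`, in increasing order. -/
def koszulD (f : Fin c → R) (N : Type u) [AddCommGroup N] [Module R N] :
    (Finset (Fin c) → N) →ₗ[R] (Finset (Fin c) → N) where
  toFun ω S := ∑ j ∈ S, ((-1 : ℤ) ^ (S.filter (· < j)).card) • f j • ω (S.erase j)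
  map_add' a b := by
    ext S
    simp [Finset.sum_add_distrib]
  map_smul' r a := by
    ext S
    simp only [Pi.smul_apply, RingHom.id_apply, Finset.smul_sum]
    refine Finset.sum_congr rfl fun j _ => ?_
    rw [smul_comm (f j) r, smul_comm _ r]

/-- The cochains of degree `i`, the part `⋀^i R^c ⊗ N`. -/
def koszulC (R : Type u) [CommRing R] (c : ℕ) (N : Type u) [AddCommGroup N] [Module R N] (i : ℤ) :
    Submodule R (Finset (Fin c) → N) where
  carrier := {ω | ∀ S : Finset (Fin c), (S.card : ℤ) ≠ i → ω S = 0}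
  add_mem' ha hb S hS := by rw [Pi.add_apply, ha S hS, hb S hS, add_zero]
  zero_mem' _ _ := rfl
  smul_mem' r a ha S hS := by rw [Pi.smul_apply, ha S hS, smul_zero]

/-- The cocycles of degree `i`. -/
def koszulZ (f : Fin c → R) (N : Type u) [AddCommGroup N] [Module R N] (i : ℤ) :
    Submodule R (Finset (Fin c) → N) :=
  koszulC R c N i ⊓ LinearMap.ker (koszulD f N)

/-- The coboundaries of degree `i`. -/
def koszulB (f : Fin c → R) (N : Type u) [AddCommGroup N] [Module R N] (i : ℤ) :
    Submodule R (Finset (Fin c) → N) :=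
  (koszulC R c N (i - 1)).map (koszulD f N)

/-- The Koszul cohomology `H^i(K(f; N))`: cocycles modulo coboundaries. -/
abbrev KoszulH (f : Fin c → R) (N : Type u) [AddCommGroup N] [Module R N] (i : ℤ) : Type u :=
  koszulZ f N i ⧸ (koszulB f N i).submoduleOf (koszulZ f N i)

open Pool.Agent.H67.FK in
lemma koszulD_eq (f : Fin c → R) (N : Type u) [AddCommGroup N] [Module R N] :
    koszulD f N = kd 0 f Finset.univ := by
  refine LinearMap.ext fun ω => funext fun S => ?_
  rw [kd_apply]
  simp only [koszulD, LinearMap.coe_mk, AddHom.coe_mk, Pi.add_apply, dop_apply,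
    LinearMap.zero_apply, smul_zero, zero_add, Finset.sum_apply, Pi.smul_apply, wed_apply]
  rw [← Finset.sum_filter_add_sum_filter_not Finset.univ (· ∈ S)]
  rw [Finset.sum_eq_zero (s := Finset.univ.filter (¬ · ∈ S))]
  · rw [add_zero, Finset.filter_mem_eq_inter, Finset.univ_inter]
    refine Finset.sum_congr rfl fun j hj => ?_
    rw [if_pos hj, smul_comm (f j)]
    rfl
  · intro j hj
    rw [if_neg (Finset.mem_filter.1 hj).2, smul_zero]

/-- The coboundaries are cocycles. -/
lemma koszulB_le (f : Fin c → R) (N : Type u) [AddCommGroup N] [Module R N] (i : ℤ) :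
    koszulB f N i ≤ koszulZ f N i := by
  rintro _ ⟨η, hη, rfl⟩
  refine ⟨fun S hS => Finset.sum_eq_zero fun j hj => ?_, ?_⟩
  · rw [hη (S.erase j), smul_zero, smul_zero]
    rw [Finset.card_erase_of_mem hj]
    have := Finset.card_pos.2 ⟨j, hj⟩
    omega
  · rw [SetLike.mem_coe, LinearMap.mem_ker, koszulD_eq]
    exact Pool.Agent.H67.FK.kd_kd (fun _ => rfl) _ _ _

end Koszul

section proof

open Pool.Agent.H67.FK ChangeOfRings

variable {R : Type u} [CommRing R] {p : ℕ} [hp : Fact p.Prime] [CharP R p]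

/-- `R` with the action of `R` through the Frobenius map. -/
noncomputable abbrev R1 (R : Type u) [CommRing R] (p : ℕ) [Fact p.Prime] [CharP R p] : ModuleCat.{u} R :=
  (ModuleCat.restrictScalars (frobenius R p)).obj (ModuleCat.of R R)

/-- The element `r ⊗ m` of `F(M)`. -/
noncomputable def tm (p : ℕ) [Fact p.Prime] [CharP R p] {M : ModuleCat.{u} R} (r : R) (m : M) :
    (Frob R p).obj M :=
  (TensorProduct.tmul R (show R1 R p from r) m : TensorProduct R (R1 R p) M)

lemma smul_tm {M : ModuleCat.{u} R} (r s : R) (m : M) : r • tm p s m = tm p (r * s) m := rfl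

lemma map_tm {M N : ModuleCat.{u} R} (g : M ⟶ N) (r : R) (m : M) :
    (Frob R p).map g (tm p r m) = tm p r (g m) := rfl

lemma tm_add {M : ModuleCat.{u} R} (r : R) (m n : M) : tm p r (m + n) = tm p r m + tm p r n :=
  TensorProduct.tmul_add _ _ _

lemma tm_zero {M : ModuleCat.{u} R} (r : R) : tm p r (0 : M) = 0 :=
  TensorProduct.tmul_zero _ _

lemma tm_smul {M : ModuleCat.{u} R} (r : R) (m : M) : tm p 1 (r • m) = r ^ p • tm p 1 m := by
  have h : tm p (1 : R) (r • m) = tm p (frobenius R p r * 1) m :=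
    (TensorProduct.smul_tmul (R := R) (M := R1 R p) (N := M) r (show R1 R p from (1 : R)) m).symm
  rw [h, smul_tm]
  rfl

lemma tm_induction {M : ModuleCat.{u} R} (P : (Frob R p).obj M → Prop) (h0 : P 0)
    (h1 : ∀ (r : R) (m : M), P (tm p r m)) (h2 : ∀ a b, P a → P b → P (a + b)) (z) : P z :=
  TensorProduct.induction_on z h0 h1 h2

lemma tm_mem {A : ModuleCat.{u} R} {X : Type u} [AddCommGroup X] [Module R X]
    (g : (Frob R p).obj A →ₗ[R] X) (S : Submodule R X) (h : ∀ m : A, g (tm p 1 m) ∈ S) (z) :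
    g z ∈ S := by
  induction z using tm_induction with
  | h0 => rw [map_zero]; exact Submodule.zero_mem _
  | h1 r m =>
    have h1 : tm p r m = r • tm p 1 m := by rw [smul_tm, mul_one]
    rw [h1, map_smul]
    exact Submodule.smul_mem _ _ (h m)
  | h2 a b ha hb => rw [map_add]; exact Submodule.add_mem _ ha hb

/-- `R` is flat over itself through the Frobenius map (Kunz). -/
lemma flat_R1 [IsRegularRing R] : Module.Flat R (R1 R p) := by
  have h := Pool.Agent.N88.FPR.regular_frob_flat R p 1
  rw [iterateFrobenius_one] at h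
  exact h

lemma feq_tm [IsRegularRing R] (M : ModuleCat.{u} R) :
    FEq R p (fun m : M => tm p 1 m) := by
  intro n r x h
  have hflat : Module.Flat R (R1 R p) := flat_R1
  have h1 : ∑ i, (TensorProduct.tmul R (x i) (show R1 R p from r i) :
      TensorProduct R M (R1 R p)) = 0 := by
    have h2 : ∑ i, (TensorProduct.tmul R (show R1 R p from r i) (x i) :
        TensorProduct R (R1 R p) M) = 0 := by
      have h3 : ∀ i, r i • tm p 1 (x i) = tm p (r i) (x i) := fun i => by
        rw [smul_tm, mul_one]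
      simp only [h3] at h
      exact h
    have h4 := congrArg (TensorProduct.comm R (R1 R p) M) h2
    rw [map_zero, map_sum] at h4
    exact h4
  obtain ⟨k, a, y, h5, h6⟩ :=
    TensorProduct.vanishesTrivially_of_sum_tmul_eq_zero_of_rTensor_injective R
      (Module.Flat.rTensor_preserves_injective_linearMap _
        (Submodule.span R (Set.range x)).injective_subtype) h1
  refine ⟨k, fun j => (show R from y j), fun j i => a i j, fun i => ?_, h6⟩
  refine (h5 i).trans (Finset.sum_congr rfl fun j _ => ?_)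
  exact mul_comm (frobenius R p (a i j)) (show R from y j)

/-- The Frobenius action on an `F`-module. -/
noncomputable def act (M : FModule R p) : M.carrier →+ M.carrier where
  toFun m := M.θ.inv (tm p 1 m)
  map_zero' := by rw [tm_zero, map_zero]
  map_add' a b := by rw [tm_add, map_add]

lemma act_apply (M : FModule R p) (m : M.carrier) : act M m = M.θ.inv (tm p 1 m) := rfl

lemma act_smul (M : FModule R p) (r : R) (m : M.carrier) : act M (r • m) = r ^ p • act M m := by
  rw [act_apply, tm_smul, map_smul, act_apply]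

lemma act_feq [IsRegularRing R] (M : FModule R p) : FEq R p (act M) := by
  intro n r x h
  refine feq_tm M.carrier n r x ?_
  have h1 := congrArg M.θ.hom h
  rw [map_sum, map_zero] at h1
  rw [← h1]
  refine Finset.sum_congr rfl fun i _ => ?_
  rw [map_smul, act_apply]
  congr 1
  exact (congrArg (fun g => g.hom (tm p 1 (x i))) M.θ.inv_hom_id).symm

variable (M : FModule R p) {N : ModuleCat.{u} R} {β : N ⟶ (Frob R p).obj N}
  {l : ∀ e, iter p N e ⟶ M.carrier}

/-- The images of `F^e(N)` in `M`. -/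
noncomputable def img (l : ∀ e, iter p N e ⟶ M.carrier) (e : ℕ) : Submodule R M.carrier :=
  LinearMap.range (l e).hom

variable {M}

lemma img_mono (hl : ∀ e, iterMap β e ≫ l (e + 1) = l e) (e : ℕ) :
    img M l e ≤ img M l (e + 1) := by
  rintro _ ⟨x, rfl⟩
  exact ⟨iterMap β e x, congrArg (fun g => g.hom x) (hl e)⟩

lemma act_l (hl : ∀ e, iterMap β e ≫ l (e + 1) = l e)
    (hθ : ∀ e, l e ≫ M.θ.hom = iterMap β e ≫ (Frob R p).map (l e)) (e : ℕ) (x : iter p N e) :
    act M (l e x) = l (e + 1) (tm p 1 x) := by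
  have h1 : l (e + 1) ≫ M.θ.hom = (Frob R p).map (l e) := by
    rw [hθ (e + 1)]
    change (Frob R p).map (iterMap β e) ≫ (Frob R p).map (l (e + 1)) = _
    rw [← Functor.map_comp, hl]
  have h2 : M.θ.hom (l (e + 1) (tm p 1 x)) = tm p 1 (l e x) :=
    congrArg (fun g => g.hom (tm p 1 x)) h1
  rw [act_apply, ← h2]
  exact congrArg (fun g => g.hom (l (e + 1) (tm p 1 x))) M.θ.hom_inv_id

lemma img_span (hl : ∀ e, iterMap β e ≫ l (e + 1) = l e)
    (hθ : ∀ e, l e ≫ M.θ.hom = iterMap β e ≫ (Frob R p).map (l e)) (e : ℕ) :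
    img M l (e + 1) = Submodule.span R (act M '' img M l e) := by
  refine le_antisymm ?_ ?_
  · rintro _ ⟨z, rfl⟩
    refine tm_mem (A := iter p N e) (X := M.carrier) (l (e + 1)).hom _ (fun m => ?_) z
    exact Submodule.subset_span ⟨l e m, ⟨m, rfl⟩, act_l hl hθ e m⟩
  · refine Submodule.span_le.2 ?_
    rintro _ ⟨_, ⟨x, rfl⟩, rfl⟩
    exact ⟨tm p 1 x, (act_l hl hθ e x).symm⟩

/-- The complex with the one term `M` in degree zero. -/
noncomputable def toFGC [IsRegularRing R] (hN : Module.Finite R N)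
    (hl : ∀ e, iterMap β e ≫ l (e + 1) = l e)
    (hθ : ∀ e, l e ≫ M.θ.hom = iterMap β e ≫ (Frob R p).map (l e)) : FGC R p where
  X := M.carrier
  d := 0
  dd _ := rfl
  φ := act M
  φs := act_smul M
  φd x := by simp
  feq := act_feq M
  G n e := if n = 0 then img M l e else ⊥
  Gmono n e := by
    split_ifs
    · exact img_mono hl e
    · exact le_rfl
  Gd n e x _ := Submodule.zero_mem _
  Gspan n e := by
    split_ifs
    · exact img_span hl hθ e
    · symm
      rw [Submodule.span_eq_bot]
      rintro _ ⟨x, hx, rfl⟩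
      rw [SetLike.mem_coe, Submodule.mem_bot] at hx
      rw [hx, map_zero]
  Gfg n := by
    split_ifs
    · have h1 : Module.Finite R (iter p N 0) := hN
      exact Module.Finite.iff_fg.1 (Module.Finite.range (l 0).hom)
    · exact Submodule.fg_bot

lemma img_mono' (hl : ∀ e, iterMap β e ≫ l (e + 1) = l e) {e e' : ℕ} (h : e ≤ e') :
    img M l e ≤ img M l e' := by
  induction h with
  | refl => exact le_rfl
  | step _ ih => exact ih.trans (img_mono hl _)

/-- every element of the colimit comes from a finite stage -/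
lemma exists_img (hl : ∀ e, iterMap β e ≫ l (e + 1) = l e)
    (hc : Nonempty (Limits.IsColimit (coconeOf β l hl))) (m : M.carrier) :
    ∃ e, m ∈ img M l e := by
  obtain ⟨hc⟩ := hc
  set U : Submodule R M.carrier := ⨆ e, img M l e with hU
  have h1 : (ModuleCat.ofHom U.mkQ : M.carrier ⟶ ModuleCat.of R (M.carrier ⧸ U)) = 0 := by
    refine hc.hom_ext fun e => ?_
    change l e ≫ ModuleCat.ofHom U.mkQ = l e ≫ 0
    ext x
    change U.mkQ (l e x) = 0
    rw [Submodule.mkQ_apply, Submodule.Quotient.mk_eq_zero]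
    exact (le_iSup (fun e => img M l e) e) ⟨x, rfl⟩
  have h2 : U.mkQ m = 0 := congrArg (fun g => g.hom m) h1
  rw [Submodule.mkQ_apply, Submodule.Quotient.mk_eq_zero, hU] at h2
  exact (Submodule.mem_iSup_of_directed _ (directed_of_isDirected_le
    fun _ _ h => img_mono' hl h)).1 h2

end proof

open Pool.Agent.H67.FK in
/-- **The supports of the Koszul cohomology modules of an `F`-finite `F`-module are closed.** -/
theorem result (R : Type u) [CommRing R] [IsRegularRing R] (p : ℕ) [hp : Fact p.Prime]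
    [CharP R p] {c : ℕ} (f : Fin c → R) (M : FModule R p) (hM : IsFFinite M) (i : ℤ) :
    IsClosed (Module.support R (KoszulH f M.carrier i)) := by
  obtain ⟨N, β, hN, l, hl, hc, hθ⟩ := hM
  set C : FGC R p := toFGC hN hl hθ with hC
  -- cochains
  have hmem : ∀ (n : ℤ) (ω : Finset (Fin c) → M.carrier), ω ∈ koszulC R c M.carrier n →
      ∃ e, ω ∈ C.kc Finset.univ n e := by
    intro n ω hω
    choose e he using fun S => exists_img hl hc (ω S)
    refine ⟨Finset.univ.sup e, fun S => ⟨?_, fun h => absurd (Finset.subset_univ _) h⟩⟩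
    change ω S ∈ if n - S.card = 0 then img M l _ else ⊥
    split_ifs with h
    · exact img_mono' hl (Finset.le_sup (Finset.mem_univ S)) (he S)
    · rw [hω S (by omega)]
      exact Submodule.zero_mem _
  have hmem' : ∀ (n : ℤ) (e : ℕ) (ω : Finset (Fin c) → M.carrier),
      ω ∈ C.kc Finset.univ n e → ω ∈ koszulC R c M.carrier n := by
    intro n e ω hω S hS
    have h1 := (hω S).1
    change ω S ∈ (if n - S.card = 0 then img M l _ else ⊥ : Submodule R M.carrier) at h1
    rwa [if_neg (by omega), Submodule.mem_bot] at h1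
  have hd : ∀ ω : Finset (Fin c) → M.carrier,
      kd C.d f Finset.univ ω = koszulD f M.carrier ω := by
    intro ω
    rw [koszulD_eq]
    rfl
  -- the localization of the cohomology at a multiplicative set
  have key : ∀ T : Submonoid R, C.Van f Finset.univ T i ↔
      ∀ m : KoszulH f M.carrier i, ∃ t ∈ T, t • m = 0 := by
    intro T
    constructor
    · intro h m
      obtain ⟨⟨ω, hω1, hω2⟩, rfl⟩ := Submodule.Quotient.mk_surjective _ m
      obtain ⟨e, he⟩ := hmem i ω hω1
      obtain ⟨t, ht, e', η, hη, h1⟩ := h e ω he (by rw [hd]; exact hω2)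
      refine ⟨t, ht, ?_⟩
      rw [← Submodule.Quotient.mk_smul, Submodule.Quotient.mk_eq_zero]
      exact ⟨η, hmem' _ _ _ hη, (hd η).symm.trans h1⟩
    · intro h e ω hω h0
      replace h0 := (hd ω).symm.trans h0
      obtain ⟨t, ht, h1⟩ := h (Submodule.Quotient.mk ⟨ω, hmem' _ _ _ hω, h0⟩)
      rw [← Submodule.Quotient.mk_smul, Submodule.Quotient.mk_eq_zero] at h1
      obtain ⟨η, hη, h2⟩ := h1
      obtain ⟨e', he'⟩ := hmem _ η hη
      exact ⟨t, ht, e', η, he', (hd η).trans h2⟩
  rw [← isOpen_compl_iff, isOpen_iff_forall_mem_open]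
  intro P hP
  rw [Set.mem_compl_iff, Module.notMem_support_iff'] at hP
  obtain ⟨s, hs, h⟩ := C.van_spread f P.asIdeal.primeCompl i ((key _).2 hP)
  refine ⟨PrimeSpectrum.basicOpen s, ?_, PrimeSpectrum.isOpen_basicOpen, hs⟩
  intro Q hQ
  rw [Set.mem_compl_iff, Module.notMem_support_iff']
  intro m
  obtain ⟨_, ⟨k, rfl⟩, h1⟩ := (key _).1 h m
  exact ⟨s ^ k, fun h2 => hQ (Q.isPrime.mem_of_pow_mem k h2), h1⟩

end Pool.Agent.Results.MP_95a866_al.ClosedSupport
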